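import Pool.Agent.U737.MN.Stm
import Pool.Agent.TH928.J3106

set_option autoImplicit false

namespace Pool.Agent.U261.MN

open Pool.Agent.U737.MN
open Pool.Agent.TH928.J3106 (range_eq_iff)

/-- points of a block are fixed by the same elements of the wreath product -/
lemma fix_iff {H X : Type} [Group H] [MulAction H X] (a c : X × Bool) :
    (∀ π : Equiv.Perm (X × Bool), π ∈ Wr2 H X → (π a = a ↔ π c = c)) ↔ a.1 = c.1 := by
  classical
  constructor
  · intro h
    by_contra hne
    have hm : Equiv.swap (c.1, false) (c.1, true) ∈ Wr2 H X := by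
      refine ⟨1, fun x => ?_⟩
      rw [one_smul, Equiv.swap_apply_def]
      split_ifs with h1 h2
      · rw [h1]
      · rw [h2]
      · rfl
    have h1 := h _ hm
    have h2 : Equiv.swap (c.1, false) (c.1, true) a = a := by
      apply Equiv.swap_apply_of_ne_of_ne
      · intro h3; exact hne (by rw [h3])
      · intro h3; exact hne (by rw [h3])
    have h3 := h1.1 h2
    obtain ⟨c1, c2⟩ := c
    cases c2 <;> simp at h3
  · intro h
    have key : ∀ a c : X × Bool, a.1 = c.1 → ∀ π : Equiv.Perm (X × Bool), π ∈ Wr2 H X →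
        π a = a → π c = c := by
      rintro ⟨a1, a2⟩ ⟨c1, c2⟩ h π ⟨g, hg⟩ hπ
      simp only at h
      subst h
      by_cases hb : a2 = c2
      · subst hb; exact hπ
      · have h1 : g • a1 = a1 := by
          have := hg (a1, a2)
          rw [hπ] at this
          exact this.symm
        have h2 : (π (a1, c2)).1 = a1 := by rw [hg]; exact h1
        have h3 : (π (a1, c2)).2 ≠ a2 := by
          intro h4
          have h5 : π (a1, c2) = π (a1, a2) := by
            rw [hπ]
            exact Prod.ext h2 h4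
          have h6 := π.injective h5
          exact hb (congrArg Prod.snd h6).symm
        refine Prod.ext h2 ?_
        revert h3 hb
        cases (π (a1, c2)).2 <;> cases a2 <;> cases c2 <;> simp
    intro π hπ
    exact ⟨key a c h π hπ, key c a h.symm π hπ⟩

/-- equality of ranges means equality of blocks -/
theorem range_iff {K Ω : Type} [Field K] [Field Ω] [Algebra K Ω] [IsGalois K Ω]
    {H X : Type} [Group H] [MulAction H X] {L : IntermediateField K Ω}
    (e : (L →ₐ[K] Ω) ≃ X × Bool) (he : ∀ π : Equiv.Perm (X × Bool), π ∈ Wr2 H X ↔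
      ∃ σ : Ω ≃ₐ[K] Ω, ∀ φ : L →ₐ[K] Ω, e (σ.toAlgHom.comp φ) = π (e φ))
    (φ ψ : L →ₐ[K] Ω) : φ.fieldRange = ψ.fieldRange ↔ (e φ).1 = (e ψ).1 := by
  rw [range_eq_iff, ← fix_iff (H := H)]
  constructor
  · intro h π hπ
    obtain ⟨σ, hσ⟩ := (he π).1 hπ
    have := h σ
    rw [← hσ, ← hσ, e.injective.eq_iff, e.injective.eq_iff]
    exact this
  · intro h σ
    let p : (L →ₐ[K] Ω) ≃ (L →ₐ[K] Ω) :=
      { toFun := fun χ => σ.toAlgHom.comp χ
        invFun := fun χ => σ.symm.toAlgHom.comp χ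
        left_inv := fun χ => by ext x; simp
        right_inv := fun χ => by ext x; simp }
    let π : Equiv.Perm (X × Bool) := (e.symm.trans p).trans e
    have hp : ∀ χ : L →ₐ[K] Ω, e (σ.toAlgHom.comp χ) = π (e χ) := by
      intro χ
      simp [π, p]
    have hπ : π ∈ Wr2 H X := (he π).2 ⟨σ, hp⟩
    have := h π hπ
    rw [← hp, ← hp, e.injective.eq_iff, e.injective.eq_iff] at this
    exact this

/-- the nontrivial automorphism of a quadratic extension -/
theorem exists_conj {K Ω : Type} [Field K] [CharZero K] [Field Ω] [Algebra K Ω]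
    (L M : IntermediateField K Ω) (h : M ≤ L) [FiniteDimensional K L]
    (h2 : Module.finrank K L = 2 * Module.finrank K M) :
    ∃ φ : L →ₐ[K] Ω, φ.fieldRange = L ∧ φ ≠ L.val ∧ ∀ x : L, φ x = x ↔ (x : Ω) ∈ M := by
  letI : Algebra M L := (IntermediateField.inclusion h).toRingHom.toAlgebra
  have hamap : ∀ y : M, ((algebraMap M L y : L) : Ω) = y := fun y => rfl
  haveI : IsScalarTower K M L := IsScalarTower.of_algebraMap_eq (fun x => rfl)
  have hpos : 0 < Module.finrank K L := Module.finrank_pos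
  have hposM : 0 < Module.finrank K M := by omega
  haveI : FiniteDimensional M L := Module.Finite.of_restrictScalars_finite K M L
  haveI : CharZero M := charZero_of_injective_algebraMap (algebraMap K M).injective
  have hr : Module.finrank M L = 2 := by
    have h3 := Module.finrank_mul_finrank K M L
    rw [h2, Nat.mul_comm 2] at h3
    exact Nat.eq_of_mul_eq_mul_left hposM h3
  haveI : Algebra.IsQuadraticExtension M L := ⟨hr⟩
  haveI : Algebra.IsSeparable M L := inferInstance
  haveI : IsGalois M L := inferInstance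
  have hcard : Nat.card (L ≃ₐ[M] L) = 2 := by rw [IsGalois.card_aut_eq_finrank, hr]
  haveI : Finite (L ≃ₐ[M] L) := Nat.finite_of_card_ne_zero (by omega)
  obtain ⟨τ, hτ⟩ : ∃ τ : L ≃ₐ[M] L, τ ≠ 1 := by
    by_contra hn
    push Not at hn
    have : Nat.card (L ≃ₐ[M] L) = 1 := by
      rw [Nat.card_eq_one_iff_unique]
      exact ⟨⟨fun a b => (hn a).trans (hn b).symm⟩, ⟨1⟩⟩
    omega
  have hall : ∀ σ : L ≃ₐ[M] L, σ = 1 ∨ σ = τ := by
    intro σ
    by_contra hn
    push Not at hn
    have h3 : ({1, τ, σ} : Set (L ≃ₐ[M] L)).ncard = 3 :=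
      Set.ncard_eq_three.mpr ⟨1, τ, σ, hτ.symm, hn.1.symm, hn.2.symm, rfl⟩
    have h4 := Set.ncard_le_card ({1, τ, σ} : Set (L ≃ₐ[M] L))
    omega
  refine ⟨L.val.comp (τ.restrictScalars K).toAlgHom, ?_, ?_, ?_⟩
  · ext x
    constructor
    · rintro ⟨y, rfl⟩
      exact (τ y).2
    · intro hx
      refine ⟨τ.symm ⟨x, hx⟩, ?_⟩
      show ((τ (τ.symm ⟨x, hx⟩) : L) : Ω) = x
      rw [AlgEquiv.apply_symm_apply]
  · intro hc
    apply hτ
    ext x
    exact DFunLike.congr_fun hc x
  · intro x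
    have h3 : (L.val.comp (τ.restrictScalars K).toAlgHom) x = x ↔ τ x = x := by
      show ((τ x : L) : Ω) = x ↔ _
      rw [Subtype.coe_inj]
    rw [h3]
    constructor
    · intro h4
      have h5 : x ∈ Set.range (algebraMap M L) := by
        rw [IsGalois.mem_range_algebraMap_iff_fixed]
        intro σ
        rcases hall σ with rfl | rfl
        · rfl
        · exact h4
      obtain ⟨y, rfl⟩ := h5
      rw [hamap]
      exact y.2
    · intro h4
      have h5 : x = algebraMap M L ⟨x, h4⟩ := Subtype.ext rfl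
      rw [h5, AlgEquiv.commutes]

theorem t_MidUnique : Pool.Agent.U737.MN.WrIff → Pool.Agent.U737.MN.MidUnique := by
  intro hW K Ω _ _ _ _ _ H X _ _ _ _ _ _ _ L M M' hM hM'
  have : Algebra.IsAlgebraic K Ω := IsAlgClosure.isAlgebraic
  have : Normal K Ω := IsAlgClosure.normal K Ω
  have : IsGalois K Ω := ⟨⟩
  obtain ⟨-, e, he⟩ := (hW K Ω H X L).2 ⟨M, hM⟩
  have key := range_iff e he
  have hLL : L.val.fieldRange = L := by
    ext x
    constructor
    · rintro ⟨y, rfl⟩
      exact y.2
    · intro hx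
      exact ⟨⟨x, hx⟩, rfl⟩
  have huniq : ∀ φ ψ : L →ₐ[K] Ω, φ.fieldRange = L → ψ.fieldRange = L → φ ≠ L.val →
      ψ ≠ L.val → φ = ψ := by
    intro φ ψ h1 h2 h3 h4
    have a1 := (key φ L.val).1 (h1.trans hLL.symm)
    have a2 := (key ψ L.val).1 (h2.trans hLL.symm)
    have b1 : (e φ).2 ≠ (e L.val).2 := fun h => h3 (e.injective (Prod.ext a1 h))
    have b2 : (e ψ).2 ≠ (e L.val).2 := fun h => h4 (e.injective (Prod.ext a2 h))
    apply e.injective
    refine Prod.ext (a1.trans a2.symm) ?_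
    revert b1 b2
    cases (e φ).2 <;> cases (e ψ).2 <;> cases (e L.val).2 <;> simp
  obtain ⟨-, hML, hfin, hdeg, -⟩ := hM
  obtain ⟨-, hML', -, hdeg', -⟩ := hM'
  obtain ⟨φ, h1, h2, h3⟩ := exists_conj L M hML hdeg
  obtain ⟨ψ, h1', h2', h3'⟩ := exists_conj L M' hML' hdeg'
  have h4 : φ = ψ := huniq φ ψ h1 h1' h2 h2'
  subst h4
  ext x
  constructor
  · intro hx
    exact (h3' ⟨x, hML hx⟩).1 ((h3 ⟨x, hML hx⟩).2 hx)
  · intro hx
    exact (h3 ⟨x, hML' hx⟩).1 ((h3' ⟨x, hML' hx⟩).2 hx)

end Pool.Agent.U261.MN
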