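import Pool.Agent.U737.MN.Stm3
import Pool.Agent.TH89.J3091

set_option autoImplicit false

open NumberField Ideal

namespace Pool.Agent.U261.MN

open Pool.Agent.TH89.J3091

theorem t_TupUnif : Pool.Agent.U737.MN.TupUnif := by
  classical
  intro D k ε hε
  have hexp : (1 : ℝ) < 1 + ε := by linarith
  set ζ : ℝ := ∑' n : ℕ, (1 : ℝ) / (n : ℝ) ^ (1 + ε) with hζ
  have hsum : Summable (fun n : ℕ => (1 : ℝ) / (n : ℝ) ^ (1 + ε)) :=
    Real.summable_one_div_nat_rpow.2 hexp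
  refine ⟨ζ ^ (k * D), ?_⟩
  intro M _ _ hD T hT
  have hpos : ∀ f : Fin k → Ideal (𝓞 M), (∀ i, f i ≠ ⊥) → ∀ i, 1 ≤ absNorm (f i) := by
    intro f hf i
    rw [Nat.one_le_iff_ne_zero, Ne, absNorm_eq_zero_iff]
    exact hf i
  have hone : ∀ f : Fin k → Ideal (𝓞 M), (∀ i, f i ≠ ⊥) → ∀ i,
      absNorm (f i) ≤ absNorm (∏ i, f i) := by
    intro f hf i
    rw [map_prod]
    exact Nat.le_of_dvd (Finset.prod_pos fun i _ => hpos f hf i)
      (Finset.dvd_prod_of_mem _ (Finset.mem_univ i))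
  have hfin : {f : Fin k → Ideal (𝓞 M) | (∀ i, f i ≠ ⊥) ∧
      (Ideal.absNorm (∏ i, f i) : ℝ) ≤ T}.Finite := by
    refine (Set.Finite.pi' (fun _ : Fin k =>
      Ideal.finite_setOfPred_absNorm_le (S := 𝓞 M) ⌊T⌋₊)).subset ?_
    rintro f ⟨hf0, hf⟩ i
    refine Nat.le_floor (le_trans ?_ hf)
    exact_mod_cast hone f hf0 i
  refine ⟨hfin, ?_⟩
  obtain ⟨j, hj, hinj⟩ := exists_index (M := M)
  set F : Finset (Fin k → Ideal (𝓞 M)) := hfin.toFinset with hF
  have hmemF : ∀ f, f ∈ F ↔ (∀ i, f i ≠ ⊥) ∧ (Ideal.absNorm (∏ i, f i) : ℝ) ≤ T := by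
    intro I; simp [hF]
  have hcard : Set.ncard {f : Fin k → Ideal (𝓞 M) | (∀ i, f i ≠ ⊥) ∧
      (Ideal.absNorm (∏ i, f i) : ℝ) ≤ T} = F.card := by
    rw [Set.ncard_eq_toFinset_card _ hfin]
  rw [hcard]
  set Φ : (Fin k → Ideal (𝓞 M)) → (Fin k × Fin D → ℕ) := fun f x => co j x.2 (f x.1) with hΦ
  have hΦpos : ∀ f x, 1 ≤ Φ f x := fun f x => co_pos j x.2 (f x.1)
  have hprod : ∀ f ∈ F, ((∏ x, Φ f x : ℕ) : ℝ) ≤ T := by
    intro f hf
    rw [hmemF] at hf
    refine le_trans ?_ hf.2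
    have h : ∏ x, Φ f x ≤ absNorm (∏ i, f i) := by
      rw [map_prod, Fintype.prod_prod_type]
      refine Finset.prod_le_prod' fun a _ => ?_
      have h := prod_co_le j hj (f a) (hf.1 a)
      rw [hD, Finset.prod_range] at h
      exact h
    exact_mod_cast h
  have hΦinj : Set.InjOn Φ F := by
    intro f hf g hg h
    rw [Finset.mem_coe, hmemF] at hf hg
    funext a
    refine co_inj j hj hinj (f a) (g a) (hf.1 a) (hg.1 a) ?_
    intro i hi
    rw [hD] at hi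
    exact congrFun h (a, ⟨i, hi⟩)
  set N : ℕ := ⌊T⌋₊ with hN
  have hmem : ∀ f ∈ F, Φ f ∈ Fintype.piFinset (fun _ : Fin k × Fin D => Finset.Icc 1 N) := by
    intro f hf
    rw [Fintype.mem_piFinset]
    intro x
    rw [Finset.mem_Icc]
    refine ⟨hΦpos f x, ?_⟩
    refine Nat.le_floor (le_trans ?_ (hprod f hf))
    have : Φ f x ∣ ∏ x, Φ f x := Finset.dvd_prod_of_mem _ (Finset.mem_univ x)
    exact_mod_cast Nat.le_of_dvd (Finset.prod_pos fun i _ => hΦpos f i) this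
  have hT0 : (0 : ℝ) < T := by linarith
  set w : (Fin k × Fin D → ℕ) → ℝ := fun x => ∏ i, (1 : ℝ) / ((x i : ℕ) : ℝ) ^ (1 + ε) with hw
  have hw0 : ∀ x, 0 ≤ w x := fun x => Finset.prod_nonneg fun i _ => by positivity
  have h1 : ∀ f ∈ F, (1 : ℝ) ≤ T ^ (1 + ε) * w (Φ f) := by
    intro f hf
    have hp : (0 : ℝ) < ((∏ i, Φ f i : ℕ) : ℝ) := by
      exact_mod_cast Finset.prod_pos fun i _ => hΦpos f i
    have : w (Φ f) = 1 / ((∏ i, Φ f i : ℕ) : ℝ) ^ (1 + ε) := by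
      rw [hw]
      simp only
      rw [Finset.prod_div_distrib, Finset.prod_const_one, Nat.cast_prod,
        ← Real.finsetProd_rpow _ _ (fun i _ => Nat.cast_nonneg _)]
    rw [this, mul_one_div, le_div_iff₀ (Real.rpow_pos_of_pos hp _), one_mul]
    exact Real.rpow_le_rpow hp.le (hprod f hf) (by linarith)
  calc (F.card : ℝ) = ∑ I ∈ F, (1 : ℝ) := by simp
    _ ≤ ∑ I ∈ F, T ^ (1 + ε) * w (Φ I) := Finset.sum_le_sum h1
    _ = T ^ (1 + ε) * ∑ I ∈ F, w (Φ I) := by rw [Finset.mul_sum]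
    _ = T ^ (1 + ε) * ∑ x ∈ F.image Φ, w x := by rw [Finset.sum_image hΦinj]
    _ ≤ T ^ (1 + ε) *
        ∑ x ∈ Fintype.piFinset (fun _ : Fin k × Fin D => Finset.Icc 1 N), w x := by
        refine mul_le_mul_of_nonneg_left ?_ (by positivity)
        refine Finset.sum_le_sum_of_subset_of_nonneg ?_ (fun x _ _ => hw0 x)
        intro x hx
        rw [Finset.mem_image] at hx
        obtain ⟨I, hI, rfl⟩ := hx
        exact hmem I hI
    _ = T ^ (1 + ε) * ∏ _i : Fin k × Fin D,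
        ∑ n ∈ Finset.Icc 1 N, (1 : ℝ) / (n : ℝ) ^ (1 + ε) := by
        rw [Finset.prod_univ_sum]
    _ ≤ T ^ (1 + ε) * ∏ _i : Fin k × Fin D, ζ := by
        refine mul_le_mul_of_nonneg_left ?_ (by positivity)
        refine Finset.prod_le_prod (fun i _ => Finset.sum_nonneg fun n _ => by positivity) ?_
        intro i _
        exact hsum.sum_le_tsum _ (fun n _ => by positivity)
    _ = ζ ^ (k * D) * T ^ (1 + ε) := by
        rw [Finset.prod_const, Finset.card_univ, Fintype.card_prod, Fintype.card_fin,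
          Fintype.card_fin, mul_comm]

end Pool.Agent.U261.MN
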